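import Mathlib
import Pool.Agent.Helper38.C3.Final
import Pool.Agent.Helper64.PX3.Ends

set_option autoImplicit false

namespace Pool.Agent.Results.MP_e243c1_co.CrossExact

open Finset Pool.Agent.Helper64.CX
open scoped symmDiff

/-- **The exact bound for pairs of families, in the agreement form.** Let `F₁`, `F₂` be families of
graphs on `n` labelled vertices such that for all `G ∈ F₁`, `H ∈ F₂` the graph of all pairs on
which `G` and `H` agree has chromatic number at least `t`.  Then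
`|F₁| |F₂| ≤ (2 ^ (C(n,2) - C(t,2))) ^ 2`.  In particular this holds if `χ(G ∩ H) ≥ t` for all
`G ∈ F₁`, `H ∈ F₂`, and a family `F` with `χ(G ∩ H) ≥ t` for all `G, H ∈ F` has at most
`2 ^ (C(n,2) - C(t,2))` members. -/
theorem result (n t : ℕ) :
    (∀ F₁ F₂ : Finset (SimpleGraph (Fin n)),
      (∀ G ∈ F₁, ∀ H ∈ F₂, (t : ℕ∞) ≤ ((G ∆ H)ᶜ).chromaticNumber) →
        F₁.card * F₂.card ≤ (2 ^ (n.choose 2 - t.choose 2)) ^ 2) ∧
    (∀ F₁ F₂ : Finset (SimpleGraph (Fin n)),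
      (∀ G ∈ F₁, ∀ H ∈ F₂, (t : ℕ∞) ≤ (G ⊓ H).chromaticNumber) →
        F₁.card * F₂.card ≤ (2 ^ (n.choose 2 - t.choose 2)) ^ 2) ∧
    (∀ F : Finset (SimpleGraph (Fin n)),
      (∀ G ∈ F, ∀ H ∈ F, (t : ℕ∞) ≤ (G ⊓ H).chromaticNumber) →
        F.card ≤ 2 ^ (n.choose 2 - t.choose 2)) := by
  classical
  have hcross : ∀ F₁ F₂ : Finset (SimpleGraph (Fin n)),
      (∀ G ∈ F₁, ∀ H ∈ F₂, (t : ℕ∞) ≤ ((G ∆ H)ᶜ).chromaticNumber) →
        F₁.card * F₂.card ≤ (2 ^ (n.choose 2 - t.choose 2)) ^ 2 := by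
    intro F₁ F₂ h
    rcases Nat.lt_or_ge t 2 with ht | ht
    · have h0 : t.choose 2 = 0 := Nat.choose_eq_zero_of_lt ht
      rw [h0, Nat.sub_zero, pow_two]
      have key : ∀ F : Finset (SimpleGraph (Fin n)), F.card ≤ 2 ^ (n.choose 2) := by
        intro F
        have h1 := card_le_univ (F.image (fun G => enc n (Pool.Agent.Helper38.C3.adj G)))
        rw [card_cfg, card_image_of_injective _ Pool.Agent.Helper38.C3.enc_adj_inj] at h1
        exact h1
      exact Nat.mul_le_mul (key F₁) (key F₂)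
    · obtain ⟨k, rfl⟩ : ∃ k, t = k + 1 := ⟨t - 1, by omega⟩
      rcases Nat.lt_or_ge k 2 with hk | hk
      · have hk1 : k = 1 := by omega
        subst hk1
        refine Pool.Agent.Helper38.C3.cross_of n 1 ?_ F₁ F₂ h
        have e : (((1 : ℝ) / 2) ^ ((1 + 1).choose 2)) ^ 2 = 1 / 4 := by norm_num [Nat.choose]
        rw [e]
        exact bound_one n
      · exact Pool.Agent.Helper64.PX3.cross_exact n k hk F₁ F₂ h
  have hinf : ∀ F₁ F₂ : Finset (SimpleGraph (Fin n)),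
      (∀ G ∈ F₁, ∀ H ∈ F₂, (t : ℕ∞) ≤ (G ⊓ H).chromaticNumber) →
        F₁.card * F₂.card ≤ (2 ^ (n.choose 2 - t.choose 2)) ^ 2 := by
    intro F₁ F₂ h
    refine hcross F₁ F₂ fun G hG H hH => ?_
    refine (h G hG H hH).trans (SimpleGraph.chromaticNumber_mono _ ?_)
    intro u v huv
    rw [SimpleGraph.inf_adj] at huv
    rw [SimpleGraph.compl_adj]
    simp only [symmDiff, SimpleGraph.sup_adj, SimpleGraph.sdiff_adj]
    exact ⟨huv.1.ne, by tauto⟩
  refine ⟨hcross, hinf, fun F h => ?_⟩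
  have h1 := hinf F F h
  rw [← pow_two] at h1
  exact (Nat.pow_le_pow_iff_left (by norm_num)).1 h1

end Pool.Agent.Results.MP_e243c1_co.CrossExact
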